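import Pool.Agent.Run7.h757.CR.App
import Pool.Agent.R460.SC.Cm
import Pool.Agent.TH892.OW.B7

/-!
The constant of the Hardy-Littlewood conjecture for `n² + a`, both signs of `a`: it is close to its
product cut at a power of `log X` (`S_HT`), and, for most `a`, bounded below and close to its product cut at a
small power of `log X` (`S_HG`).
-/

set_option autoImplicit false

namespace Run7.h437.CR

open Finset Filter Topology
open Run7.h757.CR (hprod S_HT S_HG)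
open Pool.Agent.W468.ConjF
open Pool.Agent.TH892
open Pool.Agent.H373R2.T7 (Vz)
open Pool.Agent.TH892.SW (HP HP_ge CF_HP)
open Pool.Agent.TH892.OW (HP_lim cmp_cut evt_ll)
open Pool.Agent.H442R2.EHI (evt_log_pow evt_log_ge)

lemma hprod_HP (a : ℤ) (X : ℕ) : hprod a X = HP (-a) X := rfl

/-- the logarithmic form with a sharp cut: for both signs and all but few `a` -/
theorem hp_both (U V : ℕ) : ∃ E1 : ℕ, ∀ E : ℕ, E1 ≤ E → ∃ X0 : ℕ, ∀ X : ℕ, X0 ≤ X →
    ∃ B ⊆ Icc (-(X : ℤ)) X, (#B : ℝ) ≤ (X : ℝ) / Real.log X ^ U ∧ ∀ a ∈ Icc (-(X : ℤ)) X, a ∉ B →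
      ¬ IsSquare (0 ^ 2 - 4 * 1 * a) ∧
      ∀ᶠ N in atTop, |Real.log (CF 1 0 a N) - Real.log (CF 1 0 a ⌊Real.log X ^ E⌋₊)| ≤ 1 / Real.log X ^ V := by
  classical
  obtain ⟨W, hW⟩ : ∃ W, W = U + V + 1 := ⟨_, rfl⟩
  refine ⟨3 * (W + 1) + 5, fun E hE => ?_⟩
  obtain ⟨X1, h1⟩ := Pool.Agent.R460.SC.tail_both 1 one_ne_zero 0 (1 / 4) (by norm_num) W E
  have hev : ∀ᶠ X : ℕ in atTop, (100 : ℝ) ≤ Real.log X ∧ Real.log X ^ (U + 1) ≤ (X : ℝ) ^ (1 / 2 : ℝ) ∧
      1 ≤ X := by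
    filter_upwards [evt_log_ge 100, evt_log_pow (U + 1) (1 / 2) (by norm_num), eventually_ge_atTop 1] with X a1 a2 a3
    exact ⟨a1, a2, a3⟩
  obtain ⟨X2, h2⟩ := eventually_atTop.1 hev
  refine ⟨max X1 X2, fun X hX => ?_⟩
  obtain ⟨hl, hlX, hX1⟩ := h2 X ((le_max_right _ _).trans hX)
  have h1' := h1 X ((le_max_left _ _).trans hX)
  clear h1 h2 hev hX
  rw [← Real.sqrt_eq_rpow] at hlX
  have hXr : (1 : ℝ) ≤ X := by exact_mod_cast hX1
  have hX0 : (0 : ℝ) < X := by linarith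
  have hsq : √(X : ℝ) ≤ X := by
    rw [Real.sqrt_le_left hX0.le]; nlinarith
  generalize Real.log X = l at *
  have hl0 : 0 < l := by linarith
  have hl1 : 1 ≤ l := by linarith
  obtain ⟨z, hz⟩ : ∃ z, z = ⌊l ^ E⌋₊ := ⟨_, rfl⟩
  have hzl : l ^ E < z + 1 := by rw [hz]; exact Nat.lt_floor_add_one _
  have hzu : (z : ℝ) ≤ l ^ E := by rw [hz]; exact Nat.floor_le (by positivity)
  have hz1 : l ^ (3 * (W + 1) + 4) ≤ z := by
    have e1 : l ^ (3 * (W + 1) + 5) ≤ l ^ E := pow_le_pow_right₀ hl1 hE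
    have e2 : l ^ (3 * (W + 1) + 5) = l ^ (3 * (W + 1) + 4) * l := pow_succ _ _
    have e3 : 1 ≤ l ^ (3 * (W + 1) + 4) := one_le_pow₀ hl1
    nlinarith
  obtain ⟨Ex, hEx, hgood⟩ := h1' z hz1 hzu 1 le_rfl (by
    push_cast
    exact Real.one_le_rpow hXr (by norm_num)) 0
  refine ⟨Ex ∩ Icc (-(X : ℤ)) X, inter_subset_right, ?_, ?_⟩
  · have e1 : (#(Ex ∩ Icc (-(X : ℤ)) X) : ℝ) ≤ #Ex := by exact_mod_cast card_le_card inter_subset_left
    refine (e1.trans hEx).trans ?_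
    push_cast
    rw [one_mul]
    have e2 : 2 * ((X : ℝ) / l ^ W) ≤ (X / l ^ U) / 2 := by
      have e3 : l ^ W = l ^ U * (l ^ V * l) := by rw [hW, pow_add, pow_add, pow_one]; ring
      have e4 : (4 : ℝ) ≤ l ^ V * l := by
        have := one_le_pow₀ hl1 (n := V)
        nlinarith
      rw [e3, ← div_div]
      have e5 : (X / l ^ U) / (l ^ V * l) ≤ (X / l ^ U) / 4 :=
        div_le_div_of_nonneg_left (by positivity) (by norm_num) e4
      linarith
    have e6 : (1 : ℝ) ≤ (X / l ^ U) / 2 := by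
      rw [div_div, le_div_iff₀ (by positivity), one_mul]
      calc l ^ U * 2 ≤ l ^ U * l := by
            apply mul_le_mul_of_nonneg_left _ (by positivity)
            linarith
        _ = l ^ (U + 1) := (pow_succ _ _).symm
        _ ≤ X := hlX.trans hsq
    linarith
  · intro a ha haB
    have ha' := mem_Icc.1 ha
    have haE : a ∉ Ex := fun h => haB (mem_inter.2 ⟨h, ha⟩)
    obtain ⟨g1, g2⟩ := hgood a ha'.1 ha'.2 (by
      have : ((1 : ℕ) : ℤ) = 1 := rfl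
      rw [this]
      exact Int.modEq_one) haE
    refine ⟨g1, ?_⟩
    filter_upwards [g2, eventually_ge_atTop z] with N hN hNz
    have hz2 : 2 ≤ z := by
      have : (2 : ℝ) ≤ z := by
        refine le_trans ?_ hz1
        have := one_le_pow₀ hl1 (n := 3 * (W + 1) + 3)
        rw [show 3 * (W + 1) + 4 = 3 * (W + 1) + 3 + 1 by ring, pow_succ]
        nlinarith
      exact_mod_cast this
    have h3 := CF_compare 1 0 a one_pos z z N hz2 le_rfl hNz
    have h4 : LOW 1 (0 ^ 2 - 4 * 1 * a) z z = 0 := by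
      unfold LOW
      rw [Ioc_self]
      simp
    have h5 : (3 : ℝ) * ((Nat.log 2 (1 : ℤ).toNat : ℕ) : ℝ) / z = 0 := by simp
    rw [h4, abs_zero, zero_add, h5, add_zero] at h3
    rw [← hz]
    refine h3.trans ?_
    have e1 : 1 / l ^ W ≤ (1 / l ^ V) / 2 := by
      rw [div_div]
      apply one_div_le_one_div_of_le (by positivity)
      rw [hW, show U + V + 1 = V + (U + 1) by ring, pow_add]
      apply mul_le_mul_of_nonneg_left _ (by positivity)
      have := one_le_pow₀ hl1 (n := U)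
      rw [pow_succ]
      nlinarith
    have e2 : 12 / (z : ℝ) ≤ (1 / l ^ V) / 2 := by
      have e3 : l ^ (V + 1) ≤ z := by
        refine le_trans ?_ hz1
        exact pow_le_pow_right₀ hl1 (by omega)
      have e4 : 12 / (z : ℝ) ≤ 12 / l ^ (V + 1) :=
        div_le_div_of_nonneg_left (by norm_num) (by positivity) e3
      refine e4.trans ?_
      rw [div_div, div_le_div_iff₀ (by positivity) (by positivity), one_mul, pow_succ]
      have := pow_pos hl0 V
      nlinarith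
    linarith

theorem ht : S_HT := by
  classical
  intro U V
  obtain ⟨E1, h1⟩ := hp_both U (V + 1)
  refine ⟨E1, fun E hE => ?_⟩
  obtain ⟨X0, h2⟩ := h1 E hE
  obtain ⟨X1, hX1⟩ := eventually_atTop.mp (evt_log_ge 3)
  refine ⟨max X0 X1, fun X hX => ?_⟩
  obtain ⟨B, hBs, hB, h3⟩ := h2 X ((le_max_left _ _).trans hX)
  have hL := hX1 X ((le_max_right _ _).trans hX)
  refine ⟨B, hBs, hB, fun a ha haB => ?_⟩
  obtain ⟨g1, g2⟩ := h3 a ha haB
  obtain ⟨h, hh0, hlim⟩ := CF_tendsto 1 0 a one_pos g1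
  have hlim' : Tendsto (fun N => HP (-a) N) atTop (𝓝 (2 * h)) := by
    refine (hlim.const_mul 2).congr fun N => ?_
    rw [CF_HP, neg_neg]
  refine ⟨?_, 2 * h, by positivity, ?_, ?_⟩
  · rintro ⟨r, hr⟩
    apply g1
    exact ⟨2 * r, by linarith⟩
  · simpa only [hprod_HP] using hlim'
  · rw [hprod_HP]
    have h5 := HP_lim (-a) (2 * h) (by positivity) hlim' ⌊Real.log X ^ E⌋₊ (1 / Real.log X ^ (V + 1))
      (by rw [div_le_one (by positivity)]; exact one_le_pow₀ (by linarith)) (by rw [neg_neg]; exact g2)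
    refine h5.trans ?_
    have h6 : 2 * (1 / Real.log X ^ (V + 1)) ≤ 1 / Real.log X ^ V := by
      rw [pow_succ, mul_one_div, div_le_div_iff₀ (by positivity) (by positivity)]
      have : 0 < Real.log X ^ V := by positivity
      nlinarith
    calc 2 * (1 / Real.log X ^ (V + 1)) * (2 * h) ≤ 1 / Real.log X ^ V * (2 * h) :=
          mul_le_mul_of_nonneg_right h6 (by positivity)
      _ = 2 * h / Real.log X ^ V := by ring

theorem hg : S_HG := by
  classical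
  intro η hη
  obtain ⟨w0, hw0⟩ : ∃ w0 : ℕ, w0 = ⌈1000 / η⌉₊ + 100 := ⟨_, rfl⟩
  have hw01 : 1000 / η ≤ w0 := by
    rw [hw0]; push_cast
    have := Nat.le_ceil (1000 / η)
    linarith
  have hw02 : 100 ≤ w0 := by omega
  have hw0r : (100 : ℝ) ≤ w0 := by exact_mod_cast hw02
  have hV0 := OW.Vz_pos w0
  refine ⟨Vz w0 ^ 2 / 2, by positivity, fun ε1 hε1 u hu => ?_⟩
  obtain ⟨E1, h1⟩ := hp_both 1 1
  obtain ⟨E, hE⟩ : ∃ E, E = E1 + 1 := ⟨_, rfl⟩
  obtain ⟨Xa, hXa⟩ := h1 E (by omega)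
  obtain ⟨τ, hτ⟩ : ∃ τ, τ = min ε1 1 / 8 := ⟨_, rfl⟩
  have hmin : 0 < min ε1 1 := lt_min hε1 one_pos
  have hτ0 : 0 < τ := by rw [hτ]; positivity
  have hτ1 : 8 * τ ≤ ε1 := by rw [hτ]; have := min_le_left ε1 1; linarith
  have hτ2 : 8 * τ ≤ 1 := by rw [hτ]; have := min_le_right ε1 1; linarith
  have hur : (0 : ℝ) < u := by exact_mod_cast hu
  obtain ⟨c1, hc1⟩ : ∃ c1 : ℝ, c1 = 24 / τ + 96 / (η * τ ^ 2) + w0 + 4 := ⟨_, rfl⟩
  have hev : ∀ᶠ X : ℕ in atTop, (10000 : ℝ) ≤ Real.log X ∧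
      c1 * Real.log (Real.log X) ^ 0 ≤ Real.log X ^ (1 / (u : ℝ)) ∧
      Real.log X ^ (2 * E + 1) ≤ (X : ℝ) ^ (1 / 2 : ℝ) ∧ 1 / τ + 64 / η + 64 / (η * τ ^ 2) ≤ Real.log X := by
    filter_upwards [evt_log_ge 10000, evt_ll 0 (1 / (u : ℝ)) c1 (by positivity),
      evt_log_pow (2 * E + 1) (1 / 2) (by norm_num), evt_log_ge (1 / τ + 64 / η + 64 / (η * τ ^ 2))] with X a1 a2 a3 a4
    exact ⟨a1, a2, a3, a4⟩
  obtain ⟨Xb, hXb⟩ := eventually_atTop.1 hev
  refine ⟨max Xa Xb, fun X hX => ?_⟩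
  obtain ⟨B, hBs, hB, hBK⟩ := hXa X ((le_max_left _ _).trans hX)
  obtain ⟨hl, hlu, hlX, hlτ⟩ := hXb X ((le_max_right _ _).trans hX)
  clear hXa hXb hev h1 hX
  have hX1 : 1 ≤ X := by
    rcases Nat.eq_zero_or_pos X with h | h
    · rw [h] at hl; norm_num at hl
    · exact h
  rw [pow_zero, mul_one] at hlu
  rw [← Real.sqrt_eq_rpow] at hlX
  rw [pow_one] at hB
  simp only [pow_one] at hBK
  generalize Real.log X = l at *
  have hl0 : 0 < l := by linarith
  have hl1 : 1 ≤ l := by linarith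
  have hXr : (1 : ℝ) ≤ X := by exact_mod_cast hX1
  have hX0 : (0 : ℝ) < X := by linarith
  obtain ⟨w, hw⟩ : ∃ w, w = ⌊l ^ (1 / (u : ℝ))⌋₊ := ⟨_, rfl⟩
  obtain ⟨Z, hZ⟩ : ∃ Z, Z = ⌊l ^ E⌋₊ := ⟨_, rfl⟩
  rw [← hw]
  rw [← hZ] at hBK
  have p1 : 0 < 24 / τ := by positivity
  have p2 : 0 < 96 / (η * τ ^ 2) := by positivity
  have p2' : 0 < 64 / (η * τ ^ 2) := by positivity
  have p3 : 0 < 1 / τ := by positivity
  have p4 : 0 < 64 / η := by positivity
  have hwc : 24 / τ + 96 / (η * τ ^ 2) + w0 + 3 ≤ w := by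
    have h3 := Nat.lt_floor_add_one (l ^ (1 / (u : ℝ)))
    rw [← hw] at h3
    linarith
  have hww0 : w0 ≤ w := by
    have : (w0 : ℝ) ≤ w := by linarith
    exact_mod_cast this
  have hwr : (100 : ℝ) ≤ w := by exact_mod_cast hw02.trans hww0
  have hlu1 : l ^ (1 / (u : ℝ)) ≤ l ^ E := by
    calc l ^ (1 / (u : ℝ)) ≤ l ^ (1 : ℝ) := by
          apply Real.rpow_le_rpow_of_exponent_le hl1
          rw [div_le_one hur]; exact_mod_cast hu
      _ = l := Real.rpow_one _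
      _ ≤ l ^ E := le_self_pow₀ hl1 (by omega)
  have hwZ : w ≤ Z := by rw [hw, hZ]; exact Nat.floor_le_floor hlu1
  have hZle : (Z : ℝ) ≤ l ^ E := by rw [hZ]; exact Nat.floor_le (by positivity)
  have hZ2 : (Z : ℝ) ^ 2 * l ≤ X := by
    calc (Z : ℝ) ^ 2 * l ≤ (l ^ E) ^ 2 * l := by gcongr
      _ = l ^ (2 * E + 1) := by ring
      _ ≤ √(X : ℝ) := hlX
      _ ≤ X := by
          rw [Real.sqrt_le_left hX0.le]
          nlinarith
  obtain ⟨B1, hB1⟩ : ∃ B1, B1 = (Icc (-(X : ℤ)) X).filter (fun a : ℤ => 1 / 4 < |LOW 1 (0 ^ 2 - 4 * 1 * a) w0 Z|) :=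
    ⟨_, rfl⟩
  obtain ⟨B2, hB2⟩ : ∃ B2, B2 = (Icc (-(X : ℤ)) X).filter (fun a : ℤ => τ < |LOW 1 (0 ^ 2 - 4 * 1 * a) w Z|) :=
    ⟨_, rfl⟩
  have c1' := low_ab 1 0 le_rfl X w0 Z (by omega) (1 / 4) (by norm_num)
  have c2' := low_ab 1 0 le_rfl X w Z (by omega) τ hτ0
  rw [← hB1] at c1'
  rw [← hB2] at c2'
  have hXX : ((2 * X + 1 : ℕ) : ℝ) ≤ 3 * X := by push_cast; linarith
  have d1 : (#B1 : ℝ) ≤ η * X / 2 := by
    refine c1'.trans ?_
    have e1 : ((2 * X + 1 : ℕ) : ℝ) / w0 ≤ η * X / 100 := by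
      rw [div_le_div_iff₀ (by linarith) (by norm_num)]
      rw [div_le_iff₀ hη] at hw01
      have : 1000 * (X : ℝ) ≤ η * X * w0 := by nlinarith
      linarith
    have e2 : (Z : ℝ) ^ 2 ≤ η * X / 64 := by
      have h3 : 64 / η ≤ l := by linarith
      rw [div_le_iff₀ hη] at h3
      have h4 : (Z : ℝ) ^ 2 * 64 ≤ η * ((Z : ℝ) ^ 2 * l) := by
        have : 0 ≤ (Z : ℝ) ^ 2 := sq_nonneg _
        nlinarith
      have h5 := mul_le_mul_of_nonneg_left hZ2 hη.le
      linarith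
    have h0 : 0 < η * X := by positivity
    rw [div_le_iff₀ (by norm_num)]
    linarith
  have d2 : (#B2 : ℝ) ≤ η * X / 8 := by
    refine c2'.trans ?_
    have hητ : 0 < η * τ ^ 2 := by positivity
    have e1 : ((2 * X + 1 : ℕ) : ℝ) / w ≤ η * X / 32 * τ ^ 2 := by
      rw [div_le_iff₀ (by linarith)]
      have h3 : 96 / (η * τ ^ 2) ≤ w := by linarith
      rw [div_le_iff₀ hητ] at h3
      calc ((2 * X + 1 : ℕ) : ℝ) ≤ 3 * X := hXX
        _ = X / 32 * 96 := by ring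
        _ ≤ X / 32 * (w * (η * τ ^ 2)) := mul_le_mul_of_nonneg_left h3 (by positivity)
        _ = _ := by ring
    have e2 : (Z : ℝ) ^ 2 ≤ η * X / 64 * τ ^ 2 := by
      have h3 : 64 / (η * τ ^ 2) ≤ l := by linarith
      rw [div_le_iff₀ hητ] at h3
      have h0 : 0 ≤ (Z : ℝ) ^ 2 := sq_nonneg _
      have h4 : (Z : ℝ) ^ 2 * 64 ≤ (Z : ℝ) ^ 2 * (l * (η * τ ^ 2)) := mul_le_mul_of_nonneg_left h3 h0
      have h5 := mul_le_mul_of_nonneg_right hZ2 hητ.le
      calc (Z : ℝ) ^ 2 = (Z : ℝ) ^ 2 * 64 / 64 := by ring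
        _ ≤ ((Z : ℝ) ^ 2 * l * (η * τ ^ 2)) / 64 := by
            apply div_le_div_of_nonneg_right _ (by norm_num)
            linarith
        _ ≤ (X * (η * τ ^ 2)) / 64 := div_le_div_of_nonneg_right h5 (by norm_num)
        _ = _ := by ring
    have h0 : 0 < η * X * τ ^ 2 := by positivity
    rw [div_le_iff₀ (by positivity)]
    have e3 : η * X / 32 * τ ^ 2 = (η * X * τ ^ 2) / 32 := by ring
    have e4 : η * X / 64 * τ ^ 2 = (η * X * τ ^ 2) / 64 := by ring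
    have e5 : η * X / 8 * τ ^ 2 = (η * X * τ ^ 2) / 8 := by ring
    rw [e3] at e1
    rw [e4] at e2
    rw [e5]
    linarith
  have d3 : (#B : ℝ) ≤ η * X / 8 := by
    refine hB.trans ?_
    rw [div_le_div_iff₀ hl0 (by norm_num)]
    have h3 : 64 / η ≤ l := by linarith
    rw [div_le_iff₀ hη] at h3
    nlinarith
  refine ⟨B ∪ B1 ∪ B2, ?_, ?_, ?_⟩
  · refine union_subset (union_subset hBs ?_) ?_
    · rw [hB1]; exact filter_subset _ _
    · rw [hB2]; exact filter_subset _ _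
  · have h3 := card_union_le (B ∪ B1) B2
    have h4 := card_union_le B B1
    have h5 : (#(B ∪ B1 ∪ B2) : ℝ) ≤ #B + #B1 + #B2 := by exact_mod_cast (by omega : #(B ∪ B1 ∪ B2) ≤ #B + #B1 + #B2)
    have h6 : 0 < η * X := by positivity
    linarith
  · intro a ha haB
    rw [mem_union, mem_union, not_or, not_or] at haB
    obtain ⟨⟨k1, k2⟩, k3⟩ := haB
    obtain ⟨g1, hN⟩ := hBK a ha k1
    obtain ⟨h', hh0, hlim0⟩ := CF_tendsto 1 0 a one_pos g1
    obtain ⟨h, hhd⟩ : ∃ h, h = 2 * h' := ⟨_, rfl⟩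
    have hh : 0 < h := by rw [hhd]; positivity
    have hlim : Tendsto (fun N => HP (-a) N) atTop (𝓝 h) := by
      rw [hhd]
      refine (hlim0.const_mul 2).congr fun N => ?_
      rw [CF_HP, neg_neg]
    have l1 : |LOW 1 (0 ^ 2 - 4 * 1 * a) w0 Z| ≤ 1 / 4 := by
      by_contra hc
      push Not at hc
      exact k2 (by rw [hB1, mem_filter]; exact ⟨ha, hc⟩)
    have l2 : |LOW 1 (0 ^ 2 - 4 * 1 * a) w Z| ≤ τ := by
      by_contra hc
      push Not at hc
      exact k3 (by rw [hB2, mem_filter]; exact ⟨ha, hc⟩)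
    have hlt : 1 / l ≤ τ := by
      rw [div_le_iff₀ hl0]
      have h3 : 1 / τ ≤ l := by linarith
      rw [div_le_iff₀ hτ0] at h3
      linarith
    have hsq : ¬ IsSquare (-a) := by
      rintro ⟨r, hr⟩
      apply g1
      exact ⟨2 * r, by linarith⟩
    refine ⟨hsq, h, ?_, ?_, ?_⟩
    · have h3 := HP_lim (-a) h hh hlim w0 (1 / 2) (by norm_num) (by
        rw [neg_neg]
        filter_upwards [hN] with N h4
        have h6 := cmp_cut (-a) w0 Z N (by omega) (hww0.trans hwZ) (1 / 4) (1 / l) (by rw [neg_neg]; exact l1)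
          (by rw [neg_neg]; exact h4)
        rw [neg_neg] at h6
        refine h6.trans ?_
        have h5 : 12 / (w0 : ℝ) ≤ 12 / 100 := div_le_div_of_nonneg_left (by norm_num) (by norm_num) hw0r
        linarith)
      have h4 := (abs_le.1 h3).2
      have h5 := HP_ge (-a) w0
      linarith
    · simpa only [hprod_HP] using hlim
    · rw [hprod_HP]
      have h3 := HP_lim (-a) h hh hlim w (3 * τ) (by linarith) (by
        rw [neg_neg]
        filter_upwards [hN] with N h4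
        have h6 := cmp_cut (-a) w Z N (by omega) hwZ τ (1 / l) (by rw [neg_neg]; exact l2)
          (by rw [neg_neg]; exact h4)
        rw [neg_neg] at h6
        refine h6.trans ?_
        have h5 : 12 / (w : ℝ) ≤ τ := by
          rw [div_le_iff₀ (by linarith)]
          have h6 : 24 / τ ≤ w := by linarith
          rw [div_le_iff₀ hτ0] at h6
          linarith
        linarith)
      refine h3.trans ?_
      apply mul_le_mul_of_nonneg_right _ hh.le
      linarith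

end Run7.h437.CR
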